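import Mathlib

set_option autoImplicit false

namespace Pool.Agent.H70.PR

open Filter Topology

noncomputable def Rd (d : ℕ) : ℝ := ∏ i ∈ Finset.range d, (2 : ℝ) / (2 ^ (i + 1) - 1)

theorem pow_sub_pos (i : ℕ) : (0 : ℝ) < 2 ^ (i + 1) - 1 := by
  have : (1 : ℝ) < 2 ^ (i + 1) := one_lt_pow₀ (by norm_num) (by omega)
  linarith

theorem Rd_pos (d : ℕ) : 0 < Rd d :=
  Finset.prod_pos fun i _ => div_pos (by norm_num) (pow_sub_pos i)

theorem Rd_succ (d : ℕ) : Rd (d + 1) * (2 ^ (d + 1) - 1) = 2 * Rd d := by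
  unfold Rd
  rw [Finset.prod_range_succ, mul_assoc, div_mul_cancel₀ _ (pow_sub_pos d).ne', mul_comm]

theorem Rd_summable : Summable Rd := by
  refine summable_of_ratio_norm_eventually_le (r := 2 / 3) (by norm_num) ?_
  filter_upwards [eventually_ge_atTop 1] with d hd
  rw [Real.norm_of_nonneg (Rd_pos _).le, Real.norm_of_nonneg (Rd_pos _).le]
  have h1 := Rd_succ d
  have h2 : (4 : ℝ) ≤ 2 ^ (d + 1) := by
    have : (2 : ℝ) ^ 2 ≤ 2 ^ (d + 1) := pow_le_pow_right₀ (by norm_num) (by omega)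
    linarith
  have h3 := Rd_pos (d + 1)
  nlinarith

theorem Rd_pow_summable (z : ℝ) (h0 : 0 ≤ z) (h1 : z ≤ 1) : Summable fun d => Rd d * z ^ d :=
  Summable.of_nonneg_of_le (fun d => mul_nonneg (Rd_pos d).le (pow_nonneg h0 d))
    (fun d => mul_le_of_le_one_right (Rd_pos d).le (pow_le_one₀ h0 h1)) Rd_summable

noncomputable def F (z : ℝ) : ℝ := ∑' d, Rd d * z ^ d

theorem F_fe (z : ℝ) (h0 : 0 ≤ z) (h1 : z ≤ 1) : F z = (1 + z) * F (z / 2) := by
  have hs := Rd_pow_summable z h0 h1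
  have hs2 := Rd_pow_summable (z / 2) (by linarith) (by linarith)
  have e1 : F z = Rd 0 * z ^ 0 + ∑' d, Rd (d + 1) * z ^ (d + 1) := hs.tsum_eq_zero_add
  have e2 : F (z / 2) = Rd 0 * (z / 2) ^ 0 + ∑' d, Rd (d + 1) * (z / 2) ^ (d + 1) :=
    hs2.tsum_eq_zero_add
  have t1 : Summable fun d => Rd (d + 1) * z ^ (d + 1) := (summable_nat_add_iff 1).2 hs
  have t2 : Summable fun d => Rd (d + 1) * (z / 2) ^ (d + 1) := (summable_nat_add_iff 1).2 hs2
  have e3 : F z - F (z / 2) = ∑' d, (Rd (d + 1) * z ^ (d + 1) - Rd (d + 1) * (z / 2) ^ (d + 1)) := by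
    rw [t1.tsum_sub t2, e1, e2]
    simp
  have e4 : ∀ d, Rd (d + 1) * z ^ (d + 1) - Rd (d + 1) * (z / 2) ^ (d + 1) =
      z * (Rd d * (z / 2) ^ d) := by
    intro d
    have h := Rd_succ d
    have h2 : Rd d = Rd (d + 1) * (2 ^ (d + 1) - 1) / 2 := by rw [h]; ring
    have h3 : (2 : ℝ) ^ d ≠ 0 := by positivity
    rw [h2, div_pow, div_pow, pow_succ z, pow_succ (2 : ℝ)]
    field_simp
  simp_rw [e4] at e3
  rw [tsum_mul_left] at e3
  have : F z - F (z / 2) = z * F (z / 2) := e3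
  linarith

theorem F_iter (N : ℕ) : F 1 = (∏ j ∈ Finset.range N, (1 + (1 / 2 : ℝ) ^ j)) * F ((1 / 2) ^ N) := by
  induction N with
  | zero => simp
  | succ N ih =>
    rw [ih, F_fe ((1 / 2) ^ N) (by positivity) (pow_le_one₀ (by norm_num) (by norm_num)),
      Finset.prod_range_succ, pow_succ]
    ring_nf

theorem F_lim : Tendsto (fun N : ℕ => F ((1 / 2) ^ N)) atTop (𝓝 1) := by
  have hb : ∀ z : ℝ, 0 ≤ z → z ≤ 1 → |F z - 1| ≤ z * F 1 := by
    intro z h0 h1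
    have hs := Rd_pow_summable z h0 h1
    have e1 : F z = Rd 0 * z ^ 0 + ∑' d, Rd (d + 1) * z ^ (d + 1) := hs.tsum_eq_zero_add
    have t1 : Summable fun d => Rd (d + 1) * z ^ (d + 1) := (summable_nat_add_iff 1).2 hs
    have hR0 : Rd 0 = 1 := by simp [Rd]
    have e2 : F z - 1 = ∑' d, Rd (d + 1) * z ^ (d + 1) := by rw [e1, hR0]; simp
    rw [e2, abs_of_nonneg (tsum_nonneg fun d => mul_nonneg (Rd_pos _).le (pow_nonneg h0 _))]
    have t3 : Summable fun d => z * Rd (d + 1) := ((summable_nat_add_iff 1).2 Rd_summable).mul_left z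
    have : ∑' d, Rd (d + 1) * z ^ (d + 1) ≤ ∑' d, z * Rd (d + 1) := by
      refine t1.tsum_le_tsum (fun d => ?_) t3
      have : z ^ (d + 1) ≤ z := by
        rw [pow_succ]
        exact mul_le_of_le_one_left h0 (pow_le_one₀ h0 h1)
      nlinarith [Rd_pos (d + 1)]
    refine this.trans ?_
    rw [tsum_mul_left]
    refine mul_le_mul_of_nonneg_left ?_ h0
    have e3 : F 1 = Rd 0 * 1 ^ 0 + ∑' d, Rd (d + 1) * 1 ^ (d + 1) :=
      (Rd_pow_summable 1 zero_le_one le_rfl).tsum_eq_zero_add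
    simp only [one_pow, mul_one] at e3
    rw [e3]
    linarith [Rd_pos 0]
  have h1 : Tendsto (fun N : ℕ => (1 / 2 : ℝ) ^ N * F 1) atTop (𝓝 0) := by
    have := (tendsto_pow_atTop_nhds_zero_of_lt_one (r := (1 / 2 : ℝ)) (by norm_num)
      (by norm_num)).mul_const (F 1)
    simpa using this
  have h2 : Tendsto (fun N : ℕ => F ((1 / 2) ^ N) - 1) atTop (𝓝 0) :=
    squeeze_zero_norm (fun N => by
      rw [Real.norm_eq_abs]
      exact hb _ (by positivity) (pow_le_one₀ (by norm_num) (by norm_num))) h1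
  simpa using h2.add_const 1

theorem eul : HasSum (fun d : ℕ => (⨅ N : ℕ, ∏ j ∈ Finset.range N, (1 + (1 / 2 : ℝ) ^ j)⁻¹) *
    ∏ i ∈ Finset.range d, (2 : ℝ) / (2 ^ (i + 1) - 1)) 1 := by
  have hpos : ∀ N : ℕ, 0 < ∏ j ∈ Finset.range N, (1 + (1 / 2 : ℝ) ^ j)⁻¹ := fun N =>
    Finset.prod_pos fun j _ => by positivity
  have hanti : Antitone fun N : ℕ => ∏ j ∈ Finset.range N, (1 + (1 / 2 : ℝ) ^ j)⁻¹ := by
    refine antitone_nat_of_succ_le fun N => ?_
    rw [Finset.prod_range_succ]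
    refine mul_le_of_le_one_right (hpos N).le (inv_le_one_of_one_le₀ ?_)
    have : (0 : ℝ) < (1 / 2) ^ N := by positivity
    linarith
  have hbdd : BddBelow (Set.range fun N : ℕ => ∏ j ∈ Finset.range N, (1 + (1 / 2 : ℝ) ^ j)⁻¹) :=
    ⟨0, by rintro _ ⟨N, rfl⟩; exact (hpos N).le⟩
  have hlim := tendsto_atTop_ciInf hanti hbdd
  have h2 : Tendsto (fun N : ℕ => (∏ j ∈ Finset.range N, (1 + (1 / 2 : ℝ) ^ j)⁻¹) * F 1) atTop
      (𝓝 1) := by
    refine F_lim.congr fun N => ?_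
    rw [F_iter N, Finset.prod_inv_distrib, ← mul_assoc, inv_mul_cancel₀, one_mul]
    exact (Finset.prod_pos fun j _ => by positivity).ne'
  have h3 := tendsto_nhds_unique (hlim.mul_const (F 1)) h2
  have h4 : HasSum Rd (F 1) := by
    have : F 1 = ∑' d, Rd d := by simp [F]
    rw [this]
    exact Rd_summable.hasSum
  have h5 := h4.mul_left (⨅ N : ℕ, ∏ j ∈ Finset.range N, (1 + (1 / 2 : ℝ) ^ j)⁻¹)
  rw [h3] at h5
  exact h5

end Pool.Agent.H70.PR
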