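import Pool.Agent.H62.PR.Stm
import Pool.Agent.H70.PR.EulBase

namespace Pool.Agent.H70.PR

theorem eul_S : Pool.Agent.H62.PR.S_EUL := eul

end Pool.Agent.H70.PR
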