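import Pool.Agent.H62.PR.Par0
import Pool.Graph.R_pool_sql_team_seeded_63374d34.N803.PQ.Iso2

/-!
# Project PR: isotropy at `2` depends on the class modulo squares only (part ISQ)
-/

set_option autoImplicit false
set_option linter.all false

open Polynomial
open scoped Classical

namespace Pool.Agent.H70.PR

open Pool.Agent.N922.PQ Pool.Agent.N803.PQ Pool.Agent.H62.PR

section

variable {L : Type} [Field L] [CharZero L] {a b : ℤ} {θ : L}

theorem form_eq (h : IsCub a b θ) [Fact (Irreducible (fp a b))] (α : L) (v : Fin 3 → ℚ_[2]) :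
    ∑ i : Fin 3, ∑ j : Fin 3, ((h.co 2 (θ ^ (i : ℕ) * θ ^ (j : ℕ) / α) : ℚ) : ℚ_[2]) * v i * v j =
      c2 a b ((∑ i, v i • bas a b i) * (∑ i, v i • bas a b i) / emb h α) := by
  rw [Finset.sum_mul_sum, Finset.sum_div, map_sum]
  refine Finset.sum_congr rfl fun i _ => ?_
  rw [Finset.sum_div, map_sum]
  refine Finset.sum_congr rfl fun j _ => ?_
  have e3 : v i • bas a b i * v j • bas a b j / emb h α =
      (v i * v j) • emb h (θ ^ (i : ℕ) * θ ^ (j : ℕ) / α) := by
    rw [smul_mul_smul_comm, bas_apply, bas_apply, Algebra.smul_def, mul_div_assoc,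
      ← Algebra.smul_def, map_div₀, map_mul (emb h), map_pow, map_pow, emb_gen h]
  rw [e3, map_smul, smul_eq_mul, emb_co]
  ring

theorem isoAt_iff (h : IsCub a b θ) [Fact (Irreducible (fp a b))] (α : L) :
    IsoAt h 2 α ↔ ∃ g : AdjoinRoot (fp a b), g ≠ 0 ∧ c2 a b (g * g / emb h α) = 0 := by
  constructor
  · rintro ⟨v, hv, h0⟩
    refine ⟨∑ i, v i • bas a b i, fun h1 => hv ?_, ?_⟩
    · funext i
      have h2 := (Fintype.linearIndependent_iff.1 (bas a b).linearIndependent) v h1 i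
      exact h2
    · rw [← form_eq]
      exact h0
  · rintro ⟨g, hg0, hg⟩
    refine ⟨fun i => (bas a b).repr g i, ?_, ?_⟩
    · intro h0
      apply hg0
      rw [← (bas a b).sum_repr g]
      exact Finset.sum_eq_zero fun i _ => by
        rw [show (bas a b).repr g i = 0 from congrFun h0 i, zero_smul]
    · rw [form_eq, (bas a b).sum_repr g]
      exact hg

end

/-- Part ISQ. -/
theorem isq : S_ISQ := by
  intro L _ _ a b θ h hz x y hx hy hsq
  haveI : Fact (Irreducible (fp a b)) := ⟨fp_irr hz⟩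
  obtain ⟨r, s, t, hrst⟩ := h.gen y
  have hp : aeval θ (C r + C s * X + C t * X ^ 2 : ℚ[X]) = y := by
    simp only [map_add, map_mul, map_pow, aeval_X, aeval_C, eq_ratCast]
    exact hrst.symm
  obtain ⟨g, hg⟩ := hsq _ hp
  have hy0 : emb h y ≠ 0 := fun h0 => hy ((map_eq_zero (emb h)).1 h0)
  have hG : emb h y = AdjoinRoot.mk (fp a b) g ^ 2 := by
    have h1 : AdjoinRoot.mk (fp a b)
        ((C r + C s * X + C t * X ^ 2 : ℚ[X]).map (algebraMap ℚ ℚ_[2])) =
        AdjoinRoot.mk (fp a b) (g ^ 2) := AdjoinRoot.mk_eq_mk.2 hg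
    rw [emb_mk h, hp, map_pow] at h1
    exact h1
  have hG0 : AdjoinRoot.mk (fp a b) g ≠ 0 := by
    intro h0
    rw [h0] at hG
    exact hy0 (by rw [hG]; ring)
  rw [isoAt_iff, isoAt_iff]
  constructor
  · rintro ⟨u, hu, h1⟩
    refine ⟨u / AdjoinRoot.mk (fp a b) g, div_ne_zero hu hG0, ?_⟩
    rw [← h1, map_mul, hG]
    congr 1
    field_simp
  · rintro ⟨u, hu, h1⟩
    refine ⟨u * AdjoinRoot.mk (fp a b) g, mul_ne_zero hu hG0, ?_⟩
    rw [← h1, map_mul, hG]
    congr 1
    field_simp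

end Pool.Agent.H70.PR
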