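import Pool.Agent.H62.PR.Par0
import Pool.Graph.R_pool_sql_team_seeded_63374d34.N951.PV.PT2
import Pool.Graph.R_pool_sql_team_seeded_63374d34.N907.PV.NF2
import Pool.Graph.R_pool_sql_team_seeded_63374d34.N323.PV.CAL

/-!
# Project PR: the local images at `2` of a curve and of its twist by `-1` meet trivially (part L2D)
-/

set_option autoImplicit false
set_option linter.all false

open Polynomial
open scoped Classical

namespace Pool.Agent.H70.PR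

open Pool.Agent.N922.PQ Pool.Agent.N803.PQ Pool.Agent.N323.PV Pool.Agent.N951.PV

theorem nrm_two : ‖(2 : ℚ_[2])‖ = 1 / 2 := by
  have := Padic.norm_p (p := 2)
  rw [Nat.cast_ofNat] at this
  rw [this]
  norm_num

theorem exists_int (q : ℚ) (hq : Odd q.den) : ∃ z : ℤ_[2], (z : ℚ_[2]) = (q : ℚ_[2]) := by
  have h : ‖(q : ℚ_[2])‖ ≤ 1 := by
    apply Padic.norm_rat_le_one
    intro h
    exact (Nat.not_even_iff_odd.2 hq) (even_iff_two_dvd.2 h)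
  exact ⟨⟨(q : ℚ_[2]), h⟩, rfl⟩

theorem aeval_pol {L : Type} [Field L] [CharZero L] (θ : L) (g₁ g₂ : ℤ) (r s t : ℚ) :
    aeval θ (pol ℚ g₁ g₂ r s t) = 1 + 2 * ((g₁ : L) * θ + (g₂ : L) * θ ^ 2) +
      4 * ((r : L) + (s : L) * θ + (t : L) * θ ^ 2) := by
  unfold pol
  simp

section Ring

variable {O : Type*} [CommRing O]

/-- the case of an integral point, `a = 3`, `b = 1` modulo `4` -/
lemma ringB3 (h1 : ¬ (2 : O) ∣ 1) (h2 : ∀ u : O, 2 ∣ u ^ 2 → 2 ∣ u)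
    (h0 : ∀ u w : O, 2 * u = 2 * w → u = w) (a b : ℤ) (ha : a % 4 = 3) (hb : b % 4 = 1)
    (g₁ g₂ : ℤ) (r s t x t0 t1 t2 : O)
    (e0 : x * (1 + 4 * r) + (2 * g₂ + 4 * t) * b = t0 ^ 2 - 2 * t1 * t2 * b)
    (e1 : x * (2 * g₁ + 4 * s) - (1 + 4 * r) + (2 * g₂ + 4 * t) * a =
      2 * t0 * t1 - 2 * t1 * t2 * a - t2 ^ 2 * b)
    (e2 : x * (2 * g₂ + 4 * t) - (2 * g₁ + 4 * s) = t1 ^ 2 + 2 * t0 * t2 - t2 ^ 2 * a) :
    (Even g₁ ∧ Even g₂) ∨ (Odd g₁ ∧ Odd g₂) := by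
  obtain ⟨A, rfl⟩ : ∃ A : ℤ, a = -1 + 4 * A := ⟨(a + 1) / 4, by omega⟩
  obtain ⟨B, rfl⟩ : ∃ B : ℤ, b = 1 + 4 * B := ⟨(b - 1) / 4, by omega⟩
  push_cast at e0 e1 e2
  obtain ⟨u3, hu3⟩ : ∃ u3 : O, x = t0 ^ 2 + 2 * u3 := by
    refine ⟨-(t1 * t2 * (1 + 4 * B)) - 2 * r * x - (g₂ + 2 * t) * (1 + 4 * B), ?_⟩
    linear_combination e0
  obtain ⟨u2, hu2⟩ : (2 : O) ∣ t2 - 1 := by
    apply h2
    refine ⟨t0 * t1 - t1 * t2 * (-1 + 4 * A) - 2 * B * t2 ^ 2 - x * (g₁ + 2 * s) + 1 + 2 * r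
      - (g₂ + 2 * t) * (-1 + 4 * A) - t2, ?_⟩
    linear_combination e1
  have hu2' : t2 = 1 + 2 * u2 := by linear_combination hu2
  obtain ⟨u1, hu1⟩ : (2 : O) ∣ t1 - 1 := by
    apply h2
    refine ⟨x * (g₂ + 2 * t) - (g₁ + 2 * s) - t0 * t2 + 2 * A * t2 ^ 2 -
      (2 * u2 + 2 * u2 ^ 2) - t1, ?_⟩
    linear_combination -e2 - (t2 + 1 + 2 * u2) * hu2'
  have hu1' : t1 = 1 + 2 * u1 := by linear_combination hu1
  have E1 : (2 : O) ∣ g₁ * t0 ^ 2 + g₂ - t0 - 1 := by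
    refine ⟨-(g₁ * u3) - s * x + r + g₂ - 2 * A * g₂ - t * (-1 + 4 * A) + t0 * u1
      - (u1 + u2 + 2 * u1 * u2) * (-1 + 4 * A) - 2 * A - (u2 + u2 ^ 2) * (1 + 4 * B) - B, ?_⟩
    apply h0
    rw [hu1', hu2'] at e1
    linear_combination e1 - (2 * (g₁ : O)) * hu3
  have E2 : (2 : O) ∣ g₂ * t0 ^ 2 + g₁ - t0 - 1 := by
    refine ⟨-(g₂ * u3) - t * x + s + g₁ + (u1 + u1 ^ 2) + t0 * u2
      - A - (u2 + u2 ^ 2) * (-1 + 4 * A), ?_⟩
    apply h0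
    rw [hu1', hu2'] at e2
    linear_combination e2 - (2 * (g₂ : O)) * hu3
  rcases Int.even_or_odd g₁ with hg1 | hg1 <;> rcases Int.even_or_odd g₂ with hg2 | hg2
  · exact Or.inl ⟨hg1, hg2⟩
  · exfalso
    obtain ⟨i, rfl⟩ := hg1
    obtain ⟨j, rfl⟩ := hg2
    push_cast at E1 E2
    obtain ⟨w1, hw1⟩ := E1
    obtain ⟨w2, hw2⟩ := E2
    -- `t0 = 0` modulo `2`
    obtain ⟨P, hP⟩ : ∃ P : O, t0 = 2 * P := ⟨i * t0 ^ 2 + j - w1, by linear_combination -hw1⟩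
    apply h1
    refine ⟨j * t0 ^ 2 + i + 2 * P ^ 2 - P - w2, ?_⟩
    linear_combination -hw2 + (t0 + 2 * P - 1) * hP
  · exfalso
    obtain ⟨i, rfl⟩ := hg1
    obtain ⟨j, rfl⟩ := hg2
    push_cast at E1 E2
    obtain ⟨w1, hw1⟩ := E1
    obtain ⟨w2, hw2⟩ := E2
    obtain ⟨P, hP⟩ : ∃ P : O, t0 = 2 * P := ⟨j * t0 ^ 2 + i - w2, by linear_combination -hw2⟩
    apply h1
    refine ⟨i * t0 ^ 2 + j + 2 * P ^ 2 - P - w1, ?_⟩
    linear_combination -hw1 + (t0 + 2 * P - 1) * hP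
  · exact Or.inr ⟨hg1, hg2⟩

end Ring

section Val

variable {F Γ : Type} [Field F] [CharZero F] [LinearOrderedCommGroupWithZero Γ] (v : Valuation F Γ)

lemma caseB3 (hv2 : v 2 < 1) (hv : ∀ x : F, v x < 1 → v x ≤ v 2) {a b : ℤ} (ha : a % 4 = 3)
    (hb : b % 4 = 1)
    (g₁ g₂ : ℤ) {r s t x t0 t1 t2 : F} (hr : v r ≤ 1) (hs : v s ≤ 1) (ht : v t ≤ 1) (hx : v x ≤ 1)
    (e0 : x * (1 + 4 * r) + (2 * g₂ + 4 * t) * b = t0 ^ 2 - 2 * t1 * t2 * b)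
    (e1 : x * (2 * g₁ + 4 * s) - (1 + 4 * r) + (2 * g₂ + 4 * t) * a =
      2 * t0 * t1 - 2 * t1 * t2 * a - t2 ^ 2 * b)
    (e2 : x * (2 * g₂ + 4 * t) - (2 * g₁ + 4 * s) = t1 ^ 2 + 2 * t0 * t2 - t2 ^ 2 * a) :
    (Even g₁ ∧ Even g₂) ∨ (Odd g₁ ∧ Odd g₂) := by
  have hbo : Odd b := ⟨b / 2, by omega⟩
  let r' : v.integer := ⟨r, hr⟩
  let s' : v.integer := ⟨s, hs⟩
  let t' : v.integer := ⟨t, ht⟩
  let x' : v.integer := ⟨x, hx⟩
  obtain ⟨k0, k1, k2⟩ := integral v hv2 hbo e0 e1 e2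
    (x' * (1 + 4 * r') + (2 * (g₂ : v.integer) + 4 * t') * (b : v.integer) : v.integer).2
    (x' * (2 * (g₁ : v.integer) + 4 * s') - (1 + 4 * r') +
      (2 * (g₂ : v.integer) + 4 * t') * (a : v.integer) : v.integer).2
    (x' * (2 * (g₂ : v.integer) + 4 * t') - (2 * (g₁ : v.integer) + 4 * s') : v.integer).2
  exact ringB3 (O := v.integer) (int_h1 v hv2) (int_h2 v hv2 hv) (int_h0 v) a b ha hb g₁ g₂
    r' s' t' x' ⟨t0, k0⟩ ⟨t1, k1⟩ ⟨t2, k2⟩ (Subtype.ext e0) (Subtype.ext e1) (Subtype.ext e2)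

end Val

/-- The class of a point modulo `4`, `a = 3`, `b = 1` modulo `4`. -/
theorem cal3 (F Γ : Type) [Field F] [CharZero F] [LinearOrderedCommGroupWithZero Γ]
    (v : Valuation F Γ) (hv2 : v 2 < 1) (hv : ∀ x : F, v x < 1 → v x ≤ v 2) (a b : ℤ)
    (ha : a % 4 = 3) (hb : b % 4 = 1) (g₁ g₂ : ℤ) (r s t : F) (hr : v r ≤ 1) (hs : v s ≤ 1)
    (ht : v t ≤ 1) (hPL : PL F a b (pol F g₁ g₂ r s t)) :
    (Even g₁ ∧ Even g₂) ∨ (Odd g₁ ∧ Odd g₂) := by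
  have hbo : Odd b := ⟨b / 2, by omega⟩
  rcases hPL with ⟨g, hg⟩ | ⟨x, y, hy, hxy, g, hg⟩
  · left
    obtain ⟨t0, t1, t2, e0, e1, e2⟩ := sq_form (a := a) (b := b) (1 + 4 * r) (2 * g₁ + 4 * s)
      (2 * g₂ + 4 * t) g (by
        convert hg using 1
        unfold pol
        simp only [map_add, map_mul, map_ofNat, map_one]
        ring)
    exact caseA v hv2 hv hbo g₁ g₂ hr hs ht e0 e1 e2
  · obtain ⟨t0, t1, t2, e0, e1, e2⟩ := sq_form (a := a) (b := b)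
      (x * (1 + 4 * r) + (2 * g₂ + 4 * t) * b)
      (x * (2 * g₁ + 4 * s) - (1 + 4 * r) + (2 * g₂ + 4 * t) * a)
      (x * (2 * g₂ + 4 * t) - (2 * g₁ + 4 * s)) g (by
        have h1 : ff F a b ∣ ff F a b * C (2 * g₂ + 4 * t) := dvd_mul_right _ _
        have h2 := dvd_add hg h1
        convert h2 using 1
        unfold pol ff
        simp only [map_add, map_sub, map_mul, map_ofNat, map_one]
        ring)
    by_cases hx : v x ≤ 1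
    · exact caseB3 v hv2 hv ha hb g₁ g₂ hr hs ht hx e0 e1 e2
    · rw [not_le] at hx
      exact Or.inl (caseC v hv2 hv hbo g₁ g₂ hr hs ht hx hy hxy e0 e1 e2)

/-- an even class is a square -/
theorem sq_even {a b : ℤ} (ha : Odd a) (hb : Odd b) (k₁ k₂ : ℤ) (r' s' t' : ℤ_[2]) :
    ∃ g : ℚ_[2][X], ff ℚ_[2] a b ∣ pol ℚ_[2] (k₁ + k₁) (k₂ + k₂)
      ((((k₁ + k₁) * (1 + (k₂ + k₂)) : ℤ) : ℚ_[2]) + 2 * r') s' t' - g ^ 2 := by
  have h2 := notwo ha hb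
  haveI : Fact (Irreducible (fp a b)) := ⟨fp_irr h2⟩
  have hev : ∀ x : ℤ_[2], (SR a b).subtype (io a b x) = AdjoinRoot.of (fp a b) (x : ℚ_[2]) :=
    fun x => rfl
  have hth : (SR a b).subtype (th a b) = AdjoinRoot.root (fp a b) := rfl
  have h1ne := th_ne a b h2
  have hgen := th_gen a b
  have hθ := th3 a b
  obtain ⟨a', ha'⟩ := ha
  obtain ⟨b', hb'⟩ := hb
  obtain ⟨g, hg⟩ := sq_case (io a b) (th a b) ha' hb' hθ hgen
      (r' + (k₁ * (1 + 2 * k₂) : ℤ)) (s' + (k₁ : ℤ)) (t' + (k₂ : ℤ))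
  obtain ⟨G, hG⟩ := AdjoinRoot.mk_surjective ((SR a b).subtype g)
  refine ⟨G, ?_⟩
  change fp a b ∣ _
  rw [← AdjoinRoot.mk_eq_mk, map_pow, hG, mk_pol]
  have h5 := congrArg (SR a b).subtype hg
  simp only [map_add, map_mul, map_pow, map_one, map_intCast, map_ofNat, hev, hth] at h5
  rw [h5]
  simp only [map_add, map_mul, map_intCast, map_ofNat]
  push_cast
  ring

theorem PL_iff_loc {L : Type} [Field L] [CharZero L] {a b : ℤ} {θ : L} (hc : IsCub a b θ)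
    {x c : L} (hc0 : c ≠ 0) {P : ℚ[X]} (hα : x = c ^ 2 * aeval θ P) (hL : Loc2 a b θ x) :
    PL ℚ_[2] a b (P.map (algebraMap ℚ ℚ_[2])) := by
  obtain ⟨k, hk⟩ := hc.exists_poly c
  obtain ⟨k', hk'⟩ := hc.exists_poly c⁻¹
  have e1 : aeval θ (k ^ 2 * P) = x := by
    rw [map_mul, map_pow, hk, hα]
  have e2 : aeval θ (k' ^ 2 * (k ^ 2 * P)) = aeval θ P := by
    rw [map_mul, map_pow, hk', e1, hα, ← mul_assoc, ← mul_pow, inv_mul_cancel₀ hc0, one_pow,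
      one_mul]
  have h3 := pl_sq (k'.map (algebraMap ℚ ℚ_[2])) ((pl_iff a b _).1 (hL _ e1))
  rw [← Polynomial.map_pow, ← Polynomial.map_mul] at h3
  exact N951.PV.pl_congr (cast_congr hc ℚ_[2] e2) h3

theorem isCub_neg {L : Type} [Field L] [CharZero L] {a b : ℤ} {θ : L} (hc : IsCub a b θ) :
    IsCub a (-b) (-θ) where
  root := by
    have := hc.root
    push_cast
    linear_combination -this
  rank := hc.rank
  gen x := by
    obtain ⟨r, s, t, h⟩ := hc.gen x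
    refine ⟨r, -s, t, ?_⟩
    rw [h]
    push_cast
    ring

/-- Part L2D. -/
theorem l2d : Pool.Agent.H62.PR.S_L2D := by
  intro L _ _ a b θ hc hz ha x hx hN hL hL'
  have hb : Odd b := by
    rw [← Int.not_even_iff_odd]
    intro he
    apply hz 0
    rw [even_iff_two_dvd] at he
    simpa using he
  have hao : Odd a := ⟨a / 2, by omega⟩
  obtain ⟨c, g₁, g₂, r, s, t, hc0, hr, hs, ht, hα⟩ :=
    Pool.Agent.N907.PV.t_NF2 L a b θ hc hao hb x hx hN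
  obtain ⟨zr, hzr⟩ := exists_int r hr
  obtain ⟨zs, hzs⟩ := exists_int s hs
  obtain ⟨zt, hzt⟩ := exists_int t ht
  -- the valuation
  obtain ⟨v, hv⟩ : ∃ v : Valuation ℚ_[2] NNReal, v = NormedField.valuation := ⟨_, rfl⟩
  have hvn : ∀ y : ℚ_[2], v y = ‖y‖₊ := fun y => by rw [hv]; rfl
  have hv1 : ∀ y : ℚ_[2], v y ≤ 1 ↔ ‖y‖ ≤ 1 := fun y => by
    rw [hvn, ← NNReal.coe_le_coe, coe_nnnorm, NNReal.coe_one]
  have hv2 : v 2 < 1 := by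
    rw [hvn, ← NNReal.coe_lt_coe, coe_nnnorm, NNReal.coe_one, nrm_two]
    norm_num
  have hv3 : ∀ y : ℚ_[2], v y < 1 → v y ≤ v 2 := by
    intro y hy
    rw [hvn, ← NNReal.coe_lt_coe, coe_nnnorm, NNReal.coe_one] at hy
    rw [hvn, hvn, ← NNReal.coe_le_coe, coe_nnnorm, coe_nnnorm, nrm_two]
    have h := (Padic.norm_le_pow_iff_norm_lt_pow_add_one y (-1)).2 (by simpa using hy)
    simpa using h
  have hR : ∀ g₁ : ℤ, v ((((g₁ * (1 + g₂) : ℤ) : ℚ) + 2 * r : ℚ) : ℚ_[2]) ≤ 1 := by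
    intro g₁
    rw [hv1]
    push_cast
    rw [← hzr]
    have := ((((g₁ * (1 + g₂) : ℤ) : ℤ_[2]) + 2 * zr : ℤ_[2])).2
    push_cast at this
    exact this
  have hS : v ((s : ℚ) : ℚ_[2]) ≤ 1 := by rw [hv1, ← hzs]; exact zs.2
  have hT : v ((t : ℚ) : ℚ_[2]) ≤ 1 := by rw [hv1, ← hzt]; exact zt.2
  have hS' : v ((-s : ℚ) : ℚ_[2]) ≤ 1 := by
    rw [Rat.cast_neg, Valuation.map_neg]
    exact hS
  have hA := PL_iff_loc hc hc0 hα hL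
  rw [pol_map] at hA
  have hα' : x = c ^ 2 * aeval (-θ) (pol ℚ (-g₁) g₂ ((g₁ * (1 + g₂) : ℤ) + 2 * r) (-s) t) := by
    rw [hα]
    congr 1
    rw [aeval_pol, aeval_pol]
    push_cast
    ring
  have hB := PL_iff_loc (isCub_neg hc) hc0 hα' hL'
  rw [pol_map] at hB
  have hev : Even g₁ ∧ Even g₂ := by
    have hb4 : b % 4 = 1 ∨ b % 4 = 3 := by
      obtain ⟨k, hk⟩ := hb
      omega
    rcases hb4 with h4 | h4
    · have k1 := cal3 ℚ_[2] NNReal v hv2 hv3 a b ha h4 g₁ g₂ _ _ _ (hR g₁) hS hT hA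
      have k2 := t_CAL ℚ_[2] NNReal v hv2 hv3 a (-b) hao (by omega) (-g₁) g₂ _ _ _ (hR g₁) hS' hT hB
      simp only [Int.even_iff, Int.odd_iff] at *
      omega
    · have k1 := t_CAL ℚ_[2] NNReal v hv2 hv3 a b hao (by omega) g₁ g₂ _ _ _ (hR g₁) hS hT hA
      have k2 := cal3 ℚ_[2] NNReal v hv2 hv3 a (-b) ha (by omega) (-g₁) g₂ _ _ _ (hR g₁) hS' hT hB
      simp only [Int.even_iff, Int.odd_iff] at *
      omega
  obtain ⟨⟨k₁, hk₁⟩, k₂, hk₂⟩ := hev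
  obtain ⟨g, hg⟩ := sq_even hao hb k₁ k₂ zr zs zt
  intro h' hh'
  obtain ⟨k, hk⟩ := hc.exists_poly c
  set P : ℚ[X] := pol ℚ g₁ g₂ ((g₁ * (1 + g₂) : ℤ) + 2 * r) s t with hP
  have e1 : aeval θ (k ^ 2 * P) = x := by
    rw [map_mul, map_pow, hk, hα]
  have hg' : ff ℚ_[2] a b ∣ P.map (algebraMap ℚ ℚ_[2]) - g ^ 2 := by
    rw [hP, pol_map]
    subst hk₁ hk₂
    convert hg using 3
    · push_cast
      rw [hzr]
    · rw [hzs]
    · rw [hzt]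
  refine ⟨k.map (algebraMap ℚ ℚ_[2]) * g, ?_⟩
  have h7 := cast_congr hc ℚ_[2] (hh'.trans e1.symm)
  have h8 : ff ℚ_[2] a b ∣ (k.map (algebraMap ℚ ℚ_[2])) ^ 2 * (P.map (algebraMap ℚ ℚ_[2]) - g ^ 2) :=
    dvd_mul_of_dvd_right hg' _
  have h9 := dvd_add h7 h8
  convert h9 using 1
  rw [Polynomial.map_mul, Polynomial.map_pow]
  ring

end Pool.Agent.H70.PR
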