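import Pool.Agent.H62.PR.Par0

/-!
# Project PR: the reciprocity law without condition at `2` (part REC2)
-/

set_option autoImplicit false
set_option linter.all false

open Polynomial IsDedekindDomain NumberField
open scoped Classical

namespace Pool.Agent.H70.PR

open Pool.Agent.N922.PQ Pool.Agent.H62.PR
open Pool.Agent.N874.PP (Tup chA chB gq tau Two Ev Sq1 U0)
open Pool.Agent.N900.PQ (eq_of_ov)

theorem rec2_of (h1 : S_DIAG) (h2 : S_HP) (h3 : S_UNIM) (h4 : S_RAM) (h5 : S_EXQ) : S_REC2 := by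
  intro L _ _ a b θ X S T s A B hc hS hT hF 𝔮 h𝔮 α hαM
  obtain ⟨hα, hsq, hev⟩ := hαM
  obtain ⟨d, e, hd, he, hR, hiso⟩ := h1 L a b θ hc hF.pa α hα hsq
  obtain ⟨-, heven⟩ := h2 d e hd he hR
  have hQa : ∀ Q ∈ S, ∀ z : ℤ, ¬ Q ∣ z ^ 2 + a := by
    intro Q hQ z hz
    apply (hS Q hQ).2.2 z
    have h7 := dvd_sub hz (hF.ra Q hQ)
    have h8 : z ^ 2 + a - (a - s Q) = z ^ 2 + s Q := by ring
    rwa [h8] at h7
  have hS2 : ∀ Q ∈ S, Q ≠ 2 := by
    rintro Q hQ rfl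
    have := (hS _ hQ).2.1
    norm_num at this
  have hram : ∀ (p : ℕ) [Fact p.Prime], (p : ℤ) ∈ S → ¬ Ev (𝔮 p) α →
      (IsoAt hc p α ↔ Sq1 (𝔮 p) (α * ((p : L) * θ))) := by
    intro p _ hpS hne
    have hp : p ≠ 2 := by
      rintro rfl
      exact hS2 _ hpS (by norm_num)
    obtain ⟨𝔓₁, 𝔮', o1, o2, v1, v2, -, hall⟩ := h5 L (𝓞 L) a b θ hc hF.sq p (hS _ hpS).1.2
      (hF.rb _ hpS) (hQa _ hpS)
    have hev1 : Ev 𝔓₁ α := by
      refine hev 𝔓₁ fun Q' hQ' h9 => ?_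
      rw [h9, (h𝔮 Q' hQ').2] at v1
      exact lt_irrefl _ v1
    exact h4 L (𝓞 L) a b θ hc hF.sq p hp (hF.rb _ hpS) (hQa _ hpS) 𝔓₁ (𝔮 p) o1 (h𝔮 _ hpS).1 v1
      (h𝔮 _ hpS).2 α hα hev1 hne
  set F : Finset ℤ := S.filter fun Q => ¬ Ev (𝔮 Q) α ∧ ¬ Sq1 (𝔮 Q) (α * ((Q : L) * θ)) with hFdef
  have hfact2 : Fact (Nat.Prime 2) := ⟨Nat.prime_two⟩
  have hset : {p : ℕ | ∃ _ : Fact p.Prime, ¬ Spl (d : ℚ_[p]) (e : ℚ_[p])} =
      ((if IsoAt hc 2 α then F.image Int.toNat else insert 2 (F.image Int.toNat) : Finset ℕ) :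
        Set ℕ) := by
    have hodd : ∀ p : ℕ, p ≠ 2 → ((∃ _ : Fact p.Prime, ¬ Spl (d : ℚ_[p]) (e : ℚ_[p])) ↔
        p ∈ F.image Int.toNat) := by
      intro p hp2'
      simp only [Finset.mem_image, hFdef, Finset.mem_filter]
      constructor
      · rintro ⟨hp, hn⟩
        have hn' : ¬ IsoAt hc p α := fun h => hn ((hiso p).1 h)
        have hnev : ¬ ∀ 𝔓 : HeightOneSpectrum (𝓞 L), Ov (p : ℤ) 𝔓 → Ev 𝔓 α := fun h =>
          hn' (h3 L (𝓞 L) a b θ hc hF.sq p hp2' α hα h)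
        push Not at hnev
        obtain ⟨𝔓, hov, hne⟩ := hnev
        have hex : ∃ Q ∈ S, 𝔓 = 𝔮 Q := by
          by_contra hcon
          push Not at hcon
          exact hne (hev 𝔓 hcon)
        obtain ⟨Q, hQS, rfl⟩ := hex
        have hpr : IsPr (p : ℤ) :=
          ⟨by exact_mod_cast hp.out.pos, Nat.prime_iff_prime_int.1 hp.out⟩
        obtain rfl := eq_of_ov hpr (hS Q hQS).1 hov (h𝔮 Q hQS).1
        refine ⟨(p : ℤ), ⟨hQS, hne, fun hsq1 => hn' ?_⟩, Int.toNat_natCast p⟩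
        rw [Int.cast_natCast] at hsq1
        exact (hram p hQS hne).2 hsq1
      · rintro ⟨Q, ⟨hQS, hne, hns⟩, hQp⟩
        have hpos := (hS Q hQS).1.1
        obtain rfl : Q = (p : ℤ) := by omega
        have hp : Fact p.Prime := ⟨Nat.prime_iff_prime_int.2 (hS _ hQS).1.2⟩
        refine ⟨hp, fun hs => hns ?_⟩
        rw [Int.cast_natCast]
        exact (hram p hQS hne).1 ((hiso p).2 hs)
    ext p
    rcases eq_or_ne p 2 with rfl | hp2
    · have h2F : (2 : ℕ) ∉ F.image Int.toNat := by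
        rw [Finset.mem_image]
        rintro ⟨Q, hQ, hQ2⟩
        rw [hFdef, Finset.mem_filter] at hQ
        have := (hS Q hQ.1).1.1
        exact hS2 Q hQ.1 (by omega)
      have hl : (∃ _ : Fact (Nat.Prime 2), ¬ Spl (d : ℚ_[2]) (e : ℚ_[2])) ↔ ¬ IsoAt hc 2 α := by
        rw [hiso 2]
        constructor
        · rintro ⟨h, hh⟩
          exact hh
        · intro hh
          exact ⟨⟨Nat.prime_two⟩, hh⟩
      rw [Set.mem_setOf_eq, hl]
      by_cases hI : IsoAt hc 2 α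
      · simp only [hI, not_true_eq_false, if_true, Finset.mem_coe, h2F]
      · simp only [hI, not_false_eq_true, if_false, Finset.mem_coe, Finset.mem_insert, true_or]
    · rw [Set.mem_setOf_eq, hodd p hp2]
      by_cases hI : IsoAt hc 2 α
      · simp only [hI, if_true, Finset.mem_coe]
      · simp only [hI, if_false, Finset.mem_coe, Finset.mem_insert, hp2, false_or]
  have h2F : (2 : ℕ) ∉ F.image Int.toNat := by
    rw [Finset.mem_image]
    rintro ⟨Q, hQ, hQ2⟩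
    rw [hFdef, Finset.mem_filter] at hQ
    have := (hS Q hQ.1).1.1
    exact hS2 Q hQ.1 (by omega)
  have hinj : Set.InjOn Int.toNat (F : Set ℤ) := by
    intro x hx y hy hxy
    rw [Finset.mem_coe, hFdef, Finset.mem_filter] at hx hy
    have hx0 := (hS x hx.1).1.1
    have hy0 := (hS y hy.1).1.1
    omega
  rw [hset, Set.ncard_coe_finset] at heven
  by_cases hI : IsoAt hc 2 α
  · rw [if_pos hI, Finset.card_image_of_injOn hinj] at heven
    exact ⟨fun _ => hI, fun _ => heven⟩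
  · rw [if_neg hI, Finset.card_insert_of_notMem h2F, Finset.card_image_of_injOn hinj] at heven
    refine ⟨fun h => absurd h ?_, fun h => absurd h hI⟩
    rw [Nat.even_add_one] at heven
    exact heven

/-- Part REC2. -/
theorem rec2 : S_REC2 :=
  rec2_of Pool.Agent.N655.PQ.diag Pool.Agent.N655.PQ.hp
    (Pool.Agent.N803.PQ.unim Pool.Agent.N849.PQ.int)
    (Pool.Agent.N966.PQ.ram Pool.Agent.N849.PQ.int (Pool.Agent.N747.PQ.exq Pool.Agent.N849.PQ.int))
    (Pool.Agent.N747.PQ.exq Pool.Agent.N849.PQ.int)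

end Pool.Agent.H70.PR
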